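import Pool.Agent.X308.T.Vol

/-!
# Simplicial volume zero and Euler characteristic: bounds imply vanishing

The class `C` of the theorem: closed connected oriented aspherical manifolds.
-/

set_option autoImplicit false

namespace Pool.Agent.Results.MP_8a95ee_gt.BoundedEuler

open Pool.Agent.X308.T

/-- **Theorem.** All aspherical manifolds with simplicial volume zero have Euler characteristic
zero if and only if, in a sequence of even dimensions `d`, their Euler characteristic is bounded
by `B ^ d exp (f (c N))` with a sublinear function `f` and a subadditive complexity `c`, if and
only if in a sequence of even dimensions it is bounded. -/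
theorem result {C : Type} (L : VolumeClass C) :
    (L.Question ↔ L.EulerBound) ∧ (L.Question ↔ L.EulerBounded) :=
  ⟨L.question_iff, L.question_iff_bounded⟩

end Pool.Agent.Results.MP_8a95ee_gt.BoundedEuler
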